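import Pool.Agent.helper17.LQ.SpecQ

open MeasureTheory Set

set_option autoImplicit false

namespace Pool.Agent.LP

theorem QTL_range (m : ℕ) (g : ℕ → ℂ) :
    ∑ i ∈ Finset.range (2 * m), g i = ∑ i ∈ Finset.range m, (g (2 * i) + g (2 * i + 1)) := by
  induction m with
  | zero => simp
  | succ m ih =>
    rw [show 2 * (m + 1) = 2 * m + 1 + 1 by ring, Finset.sum_range_succ, Finset.sum_range_succ, ih,
      Finset.sum_range_succ]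
    ring

theorem QTL_step (a : ℕ → ℕ → ℂ) (ha : ∀ n k : ℕ, a n k = a (n + 1) (2 * k) + a (n + 1) (2 * k + 1))
    (n : ℕ) : ∑ z ∈ PA n, a n z.1 * a n z.2 =
      ∑ z ∈ PR (n + 1), a (n + 1) z.1 * a (n + 1) z.2 + ∑ z ∈ PA (n + 1), a (n + 1) z.1 * a (n + 1) z.2 := by
  unfold PR PA
  rw [Finset.sum_filter, Finset.sum_filter, Finset.sum_filter, ← Finset.sum_add_distrib]
  have e : ∀ z : ℕ × ℕ, ((if z.1 / 2 ≤ z.2 / 2 + 1 ∧ z.2 / 2 ≤ z.1 / 2 + 1 ∧ (z.1 + 2 ≤ z.2 ∨ z.2 + 2 ≤ z.1) then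
      a (n + 1) z.1 * a (n + 1) z.2 else 0) + if z.1 ≤ z.2 + 1 ∧ z.2 ≤ z.1 + 1 then a (n + 1) z.1 * a (n + 1) z.2 else 0)
      = if z.1 / 2 ≤ z.2 / 2 + 1 ∧ z.2 / 2 ≤ z.1 / 2 + 1 then a (n + 1) z.1 * a (n + 1) z.2 else 0 := by
    intro z
    by_cases h1 : z.1 ≤ z.2 + 1 ∧ z.2 ≤ z.1 + 1
    · have h2 : ¬ (z.1 / 2 ≤ z.2 / 2 + 1 ∧ z.2 / 2 ≤ z.1 / 2 + 1 ∧ (z.1 + 2 ≤ z.2 ∨ z.2 + 2 ≤ z.1)) := by omega
      have h3 : z.1 / 2 ≤ z.2 / 2 + 1 ∧ z.2 / 2 ≤ z.1 / 2 + 1 := by omega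
      rw [if_pos h1, if_neg h2, if_pos h3, zero_add]
    · by_cases h3 : z.1 / 2 ≤ z.2 / 2 + 1 ∧ z.2 / 2 ≤ z.1 / 2 + 1
      · have h2 : z.1 / 2 ≤ z.2 / 2 + 1 ∧ z.2 / 2 ≤ z.1 / 2 + 1 ∧ (z.1 + 2 ≤ z.2 ∨ z.2 + 2 ≤ z.1) := by omega
        rw [if_neg h1, if_pos h2, if_pos h3, add_zero]
      · have h2 : ¬ (z.1 / 2 ≤ z.2 / 2 + 1 ∧ z.2 / 2 ≤ z.1 / 2 + 1 ∧ (z.1 + 2 ≤ z.2 ∨ z.2 + 2 ≤ z.1)) := by omega
        rw [if_neg h1, if_neg h2, if_neg h3, add_zero]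
  rw [Finset.sum_congr rfl fun z _ => e z, Finset.sum_product, Finset.sum_product, pow_succ, mul_comm (2 ^ n) 2,
    QTL_range]
  refine Finset.sum_congr rfl fun k _ => ?_
  rw [QTL_range, QTL_range, ← Finset.sum_add_distrib]
  refine Finset.sum_congr rfl fun l _ => ?_
  have d0 : ∀ i : ℕ, 2 * i / 2 = i := fun i => by omega
  have d1 : ∀ i : ℕ, (2 * i + 1) / 2 = i := fun i => by omega
  simp only [d0, d1]
  by_cases h : k ≤ l + 1 ∧ l ≤ k + 1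
  · simp only [if_pos h]
    rw [ha n k, ha n l]
    ring
  · simp only [if_neg h]
    ring

theorem QTL_proof : QTL_stmt := by
  intro a ha n
  induction n with
  | zero =>
    have : PA 0 = {(0, 0)} := by
      unfold PA
      rfl
    rw [this, Finset.sum_singleton, Finset.sum_range_zero, zero_add]
    ring
  | succ n ih =>
    rw [ih, QTL_step a ha n, Finset.sum_range_succ]
    ring

end Pool.Agent.LP
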