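import Pool.Agent.helper57.LQ.SpecC

/-!
# Project lq:, module T7B: the powers of `T 7`
-/

set_option autoImplicit false

open Finset PowerSeries

noncomputable section

namespace Pool.Agent.LQ

theorem T7B_mem : T 7 ∈ TT 6 := Submodule.subset_span ⟨7, by norm_num, rfl⟩

theorem T7B_pow (hALG : ALG_stmt) (b : ℕ) : T 7 ^ b ∈ TT 6 := by
  induction b with
  | zero => rw [pow_zero]; exact (hALG 6 (by norm_num)).1
  | succ b ih => rw [pow_succ]; exact ((hALG 6 (by norm_num)).2 _ ih _ T7B_mem).1

theorem T7B_V1 (g f : FF) (hf : f ∈ VV 6 g 1) : f = 0 := by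
  have he : {f : FF | ∃ i : ℕ, i < 1 ∧ i.Coprime 6 ∧ f = g ^ i} = ∅ := by
    ext h
    simp only [Set.mem_setOf_eq, Set.mem_empty_iff_false, iff_false]
    rintro ⟨i, hi, hc, -⟩
    have : i = 0 := by omega
    subst this
    revert hc
    decide
  unfold VV at hf
  rw [he, Submodule.span_empty] at hf
  exact (Submodule.mem_bot _).1 hf

theorem T7B_eq {a c : FF} (h : a + c = 0) : a = c := by
  have h1 : a + c + c = c := by rw [h, zero_add]
  rw [add_assoc, add_self_FF, add_zero] at h1
  exact h1

/-- `T 7` maps `VV (l + 6)` to `VV l`. -/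
theorem T7B_low (hHT7 : HT7_stmt) (l : ℕ) (f : FF) (hf : f ∈ VV 6 tt (l + 6)) : T 7 f ∈ VV 6 tt l := by
  unfold VV at hf
  induction hf using Submodule.span_induction with
  | mem x hx =>
    obtain ⟨i, hi, hc, rfl⟩ := hx
    have h := hHT7 i hc
    have hle : VV 6 tt (i - 6) ≤ VV 6 tt l := VV_mono _ _ (by omega)
    split_ifs at h with hi2
    · have h1 : tt ^ (i - 6) ∈ VV 6 tt l := by
        apply Submodule.subset_span
        refine ⟨i - 6, by omega, ?_, rfl⟩
        have h2 : i = (i - 6) + 6 := by omega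
        rw [h2] at hc
        simpa using hc
      have h2 := Submodule.add_mem _ (hle h) h1
      rw [add_assoc, add_self_FF, add_zero] at h2
      exact h2
    · rw [add_zero] at h
      exact hle h
  | zero => rw [map_zero]; exact Submodule.zero_mem _
  | add x y _ _ hx hy => rw [map_add]; exact Submodule.add_mem _ hx hy
  | smul c x _ hx => rw [map_smul]; exact Submodule.smul_mem _ _ hx

theorem T7B (hGN6 : GN6_stmt) (hALG : ALG_stmt) (hAF2 : AF2_stmt) (hSQR : SQR_stmt)
    (hSQ6 : SQ6_stmt) (hSP6 : SP6_stmt) (hSDF : SDF_stmt) (hHT7 : HT7_stmt) : T7B_stmt := by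
  intro b
  induction b using Nat.strong_induction_on with
  | _ b ih =>
    rcases Nat.eq_zero_or_pos b with rfl | hpos
    · rw [hSDF.1]
      refine ⟨fun f hf => ?_, ?_⟩
      · rw [T7B_V1 tt f hf, map_zero]
      · have h1 : (1 + 6 * 0 : ℕ) = 1 := by norm_num
        rw [pow_zero, h1, pow_one, Module.End.one_apply]
        exact hGN6.c1
    · rcases Nat.even_or_odd' b with ⟨b', rfl | rfl⟩
      · -- even
        have hb' : b' < 2 * b' := by omega
        obtain ⟨ih1, ih2⟩ := ih b' hb'
        have hsd : sd (2 * b') = 4 * sd b' := (hSDF.2.1 b').1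
        have hK : 1 + 6 * sd (2 * b') = 1 + 4 * (6 * sd b') := by rw [hsd]; ring
        have hpow : T 7 ^ (2 * b') = T 7 ^ b' * T 7 ^ b' := by rw [two_mul, pow_add]
        have hA := T7B_pow hALG b'
        rw [hK, hpow]
        refine ⟨fun f hf => ?_, ?_⟩
        · rw [Module.End.mul_apply]
          exact hSQR 6 tt hGN6 (1 + 4 * (6 * sd b')) (1 + 6 * sd b') (hSP6 (sd b')) _ hA ih1 f hf
        · rw [Module.End.mul_apply, hAF2 6 (by norm_num) _ hA]
          have h1 := ih1 _ (hSQ6 (sd b'))
          rw [map_add] at h1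
          rw [T7B_eq h1]
          exact ih2
      · -- odd
        obtain ⟨ih1, ih2⟩ := ih (2 * b') (by omega)
        have hsd : sd (2 * b') = 4 * sd b' := (hSDF.2.1 b').1
        have hsd' : sd (2 * b' + 1) = 4 * sd b' + 1 := (hSDF.2.1 b').2
        have hK : 1 + 6 * sd (2 * b' + 1) = (1 + 6 * sd (2 * b')) + 6 := by rw [hsd, hsd']; ring
        rw [hK, pow_succ]
        refine ⟨fun f hf => ?_, ?_⟩
        · rw [Module.End.mul_apply]
          exact ih1 _ (T7B_low hHT7 _ f hf)
        · rw [Module.End.mul_apply]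
          have hc : ((1 + 6 * sd (2 * b')) + 6).Coprime 6 := by
            have : (1 + 6 * sd (2 * b')) + 6 = 1 + 6 * (sd (2 * b') + 1) := by ring
            rw [this]
            simp
          have h := hHT7 _ hc
          have h12 : ((1 + 6 * sd (2 * b')) + 6) % 12 = 7 ∨ ((1 + 6 * sd (2 * b')) + 6) % 12 = 11 := by
            rw [hsd]; omega
          rw [if_pos h12, Nat.add_sub_cancel] at h
          have h1 := ih1 _ h
          rw [map_add] at h1
          rw [T7B_eq h1]
          exact ih2

end Pool.Agent.LQ
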